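import Pool.Agent.H67.EndQ

namespace Pool.Agent.Results.MP_c0911c_al.Monolith

open Pool.Agent.H67.EndQ

universe u

/-- Terms of the language of rings without identity. -/
inductive Term : Type
  | var : ℕ → Term
  | zero : Term
  | neg : Term → Term
  | add : Term → Term → Term
  | mul : Term → Term → Term

/-- Value of a term. -/
def Term.eval {A : Type u} [NonUnitalNonAssocRing A] (v : ℕ → A) : Term → A
  | .var i => v i
  | .zero => 0
  | .neg t => -t.eval v
  | .add s t => s.eval v + t.eval v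
  | .mul s t => s.eval v * t.eval v

/-- The identity `s = t` holds in `A`. -/
def Holds (A : Type u) [NonUnitalNonAssocRing A] (s t : Term) : Prop :=
  ∀ v : ℕ → A, s.eval v = t.eval v

/-- Some identity holds in all proper quotients but not in `R`. -/
def Critical (R : Type u) [NonUnitalCommRing R] : Prop :=
  ∃ s t : Term, (∀ I : TwoSidedIdeal R, I ≠ ⊥ → Holds I.ringCon.Quotient s t) ∧ ¬ Holds R s t

variable {R : Type u} [NonUnitalCommRing R]

theorem eval_mk (I : TwoSidedIdeal R) (w : ℕ → R) (t : Term) :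
    t.eval (fun i => (w i : I.ringCon.Quotient)) = (t.eval w : R) := by
  induction t with
  | var i => rfl
  | zero => rfl
  | neg t ih => simp only [Term.eval, ih]; rfl
  | add s t h1 h2 => simp only [Term.eval, h1, h2]; rfl
  | mul s t h1 h2 => simp only [Term.eval, h1, h2]; rfl

theorem holds_iff (I : TwoSidedIdeal R) (s t : Term) :
    Holds I.ringCon.Quotient s t ↔ ∀ w : ℕ → R, s.eval w - t.eval w ∈ I := by
  constructor
  · intro h w
    have := h fun i => (w i : I.ringCon.Quotient)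
    rw [eval_mk, eval_mk, RingCon.eq] at this
    exact (I.rel_iff _ _).1 this
  · intro h v
    choose w hw using fun i => Quotient.mk''_surjective (v i)
    have : v = fun i => (w i : I.ringCon.Quotient) := funext fun i => (hw i).symm
    rw [this, eval_mk, eval_mk, RingCon.eq]
    exact (I.rel_iff _ _).2 (h w)

def pw : ℕ → R → R
  | 0, x => x
  | n + 1, x => pw n x * x

def pwT : ℕ → Term → Term
  | 0, x => x
  | n + 1, x => .mul (pwT n x) x

theorem eval_pwT (v : ℕ → R) (n : ℕ) (t : Term) : (pwT n t).eval v = pw n (t.eval v) := by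
  induction n with
  | zero => rfl
  | succ n ih => simp only [pwT, pw, Term.eval, ih]

def smT : ℕ → Term → Term
  | 0, _ => .zero
  | n + 1, x => .add (smT n x) x

theorem eval_smT (v : ℕ → R) (n : ℕ) (t : Term) : (smT n t).eval v = n • t.eval v := by
  induction n with
  | zero => simp [smT, Term.eval]
  | succ n ih => simp only [smT, Term.eval, ih, succ_nsmul]

def pr (w : ℕ → R) : ℕ → R
  | 0 => w 0
  | n + 1 => pr w n * w (n + 1)

def prT (w : ℕ → Term) : ℕ → Term
  | 0 => w 0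
  | n + 1 => .mul (prT w n) (w (n + 1))

theorem eval_prT (v : ℕ → R) (w : ℕ → Term) (n : ℕ) :
    (prT w n).eval v = pr (fun i => (w i).eval v) n := by
  induction n with
  | zero => rfl
  | succ n ih => simp only [prT, pr, Term.eval, ih]

theorem pr_congr (w w' : ℕ → R) (n : ℕ) (h : ∀ i ≤ n, w i = w' i) : pr w n = pr w' n := by
  induction n with
  | zero => exact h 0 le_rfl
  | succ n ih => rw [pr, pr, ih fun i hi => h i (by omega), h _ le_rfl]

theorem exists_N [Finite R] : ∃ N, ∀ x : R, pw N x * pw N x = pw N x := by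
  have h1 : ∀ n (x : R), Additive.toMul (rep n (Additive.ofMul (id : R → R))) x = pw n x := by
    intro n x
    induction n with
    | zero => rfl
    | succ n ih => rw [pw, ← ih]; rfl
  obtain ⟨k, l, hkl, h⟩ := Finite.exists_ne_map_eq_of_infinite
    fun n => rep n (Additive.ofMul (id : R → R))
  have h2 : ∃ N, rep N (Additive.ofMul (id : R → R)) + rep N (Additive.ofMul (id : R → R)) =
      rep N (Additive.ofMul (id : R → R)) := by
    rcases lt_or_gt_of_ne hkl with k1 | k1
    · exact idem_of _ _ _ k1 (by rw [← coe_rep, ← coe_rep, h])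
    · exact idem_of _ _ _ k1 (by rw [← coe_rep, ← coe_rep, h])
  obtain ⟨N, hN⟩ := h2
  refine ⟨N, fun x => ?_⟩
  rw [← h1]
  exact congrFun (congrArg Additive.toMul hN) x

theorem pw_mul (n : ℕ) (x y : R) : pw n (x * y) = pw n x * pw n y := by
  induction n with
  | zero => rfl
  | succ n ih => rw [pw, pw, pw, ih, mul_mul_mul_comm]

theorem fix_pw (n : ℕ) {z j : R} (h : z * j = z) : z * pw n j = z := by
  induction n with
  | zero => exact h
  | succ n ih => rw [pw, ← mul_assoc, ih, h]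

theorem bound [Finite R] (N : ℕ) (w : ℕ → R) (hw : ∀ i, pw N (w i) = 0) (k : ℕ)
    (h : pr w k ≠ 0) : {z | ∃ j, pw N j = 0 ∧ z = pr w k * j}.ncard + k ≤ Nat.card R := by
  induction k with
  | zero => simpa using Set.ncard_le_card _
  | succ k ih =>
    have h0 : pr w k ≠ 0 := fun h0 => h (by rw [pr, h0, zero_mul])
    have := ih h0
    have hlt : {z | ∃ j, pw N j = 0 ∧ z = pr w (k + 1) * j}.ncard <
        {z | ∃ j, pw N j = 0 ∧ z = pr w k * j}.ncard := by
      refine Set.ncard_lt_ncard ⟨?_, fun hs => ?_⟩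
      · rintro _ ⟨j, hj, rfl⟩
        exact ⟨w (k + 1) * j, by rw [pw_mul, hj, mul_zero], by rw [pr, mul_assoc]⟩
      · obtain ⟨j, hj, e⟩ := hs ⟨w (k + 1), hw _, rfl⟩
        have := fix_pw N (z := pr w (k + 1)) e.symm
        rw [hj, mul_zero] at this
        exact h this.symm
    omega

/-- An ideal from a predicate. -/
def mkI (P : R → Prop) (h0 : P 0) (ha : ∀ x y, P x → P y → P (x + y)) (hn : ∀ x, P x → P (-x))
    (hm : ∀ x y, P y → P (x * y)) : TwoSidedIdeal R :=
  .mk' {x | P x} h0 (fun h1 h2 => ha _ _ h1 h2) (fun h => hn _ h) (fun h => hm _ _ h)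
    (fun {x y} h => by rw [mul_comm]; exact hm _ _ h)

theorem main [Finite R] (M : TwoSidedIdeal R) (hM : M ≠ ⊥) (hle : ∀ I, I ≠ ⊥ → M ≤ I) :
    ∃ t : Term, (∀ v : ℕ → R, t.eval v ∈ M) ∧ ∃ v : ℕ → R, t.eval v ≠ 0 := by
  classical
  obtain ⟨N, hN⟩ := exists_N (R := R)
  obtain ⟨m, hm, hm0⟩ : ∃ m ∈ M, m ≠ 0 := by
    by_contra hc
    push Not at hc
    exact hM (eq_bot_iff.2 fun x hx => (TwoSidedIdeal.mem_bot _).2 (hc x hx))
  have key : ∀ (P : R → Prop), P 0 → (∀ x y, P x → P y → P (x + y)) → (∀ x, P x → P (-x)) →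
      (∀ x y, P y → P (x * y)) → ∀ y, y ≠ 0 → P y → P m := fun P h0 ha hn hmu y hy hP => by
    have := hle (mkI P h0 ha hn hmu) (fun h => hy ((TwoSidedIdeal.mem_bot _).1
      (h ▸ (by simpa [mkI] using hP : y ∈ mkI P h0 ha hn hmu)))) hm
    simpa [mkI] using this
  have mult : ∀ y r, y * r ≠ 0 → ∃ t, m = y * t := fun y r h =>
    key (fun z => ∃ t, z = y * t) ⟨0, by simp⟩
      (by rintro _ _ ⟨a, rfl⟩ ⟨b, rfl⟩; exact ⟨a + b, by rw [mul_add]⟩)
      (by rintro _ ⟨a, rfl⟩; exact ⟨-a, by simp⟩)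
      (by rintro x _ ⟨a, rfl⟩; exact ⟨x * a, by rw [mul_left_comm]⟩) _ h ⟨r, rfl⟩
  have idem : ∀ e : R, e * e = e → e ≠ 0 → ∀ x, e * x = x := fun e he h0 x => by
    by_contra hx
    obtain ⟨t, ht⟩ := mult e e (by rwa [he])
    have := key (fun z => e * z = 0) (by simp) (fun a b h1 h2 => by rw [mul_add, h1, h2, add_zero])
      (fun a h => by simp [h]) (fun a b h => by rw [mul_left_comm, h, mul_zero]) (e * x - x)
      (sub_ne_zero.2 hx) (by rw [mul_sub, ← mul_assoc, he, sub_self])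
    rw [ht, ← mul_assoc, he] at this
    exact hm0 (ht.trans this)
  have gnil : ∀ x : R, pw N (x - x * pw N x) = 0 := fun x => by
    by_cases h : pw N x = 0
    · rw [h, mul_zero, sub_zero, h]
    · rw [mul_comm, idem _ (hN x) h, sub_self]
      cases N <;> simp [pw]
  by_cases hJ : ∃ j : R, pw N j = 0 ∧ j ≠ 0
  swap
  · push Not at hJ
    refine ⟨.var 0, fun v => ?_, fun _ => m, hm0⟩
    have h1 : pw N m ≠ 0 := fun h => hm0 (hJ m h)
    show v 0 ∈ M
    rw [← idem _ (hN m) h1 (v 0)]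
    refine M.mul_mem_right _ _ ?_
    cases N with
    | zero => exact hm
    | succ N => exact M.mul_mem_left _ _ hm
  obtain ⟨j0, hj0, hj1⟩ := hJ
  let P : ℕ → Prop := fun k => ∃ w : ℕ → R, (∀ i, pw N (w i) = 0) ∧ pr w k ≠ 0
  have hP0 : P 0 := ⟨fun _ => j0, fun _ => hj0, hj1⟩
  let k := Nat.findGreatest P (Nat.card R)
  have hk : P k := Nat.findGreatest_spec (Nat.zero_le _) hP0
  have hk' : ∀ w : ℕ → R, (∀ i, pw N (w i) = 0) → ∀ j, pw N j = 0 → pr w k * j = 0 := by
    intro w hw j hj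
    by_contra h
    have hw' : ∀ i, pw N (Function.update w (k + 1) j i) = 0 := fun i => by
      rcases eq_or_ne i (k + 1) with rfl | hi
      · simpa using hj
      · rw [Function.update_of_ne hi]; exact hw i
    have h1 : pr (Function.update w (k + 1) j) (k + 1) ≠ 0 := by
      rwa [pr, Function.update_self, pr_congr _ w k fun i hi =>
        Function.update_of_ne (by omega) _ _]
    have := bound N _ hw' _ h1
    exact Nat.findGreatest_is_greatest (Nat.lt_succ_self k) (by omega) ⟨_, hw', h1⟩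
  let T : Term := prT (fun i => .add (.var i) (.neg (.mul (.var i) (pwT N (.var i))))) k
  have hT : ∀ v : ℕ → R, T.eval v = pr (fun i => v i - v i * pw N (v i)) k := fun v => by
    simp only [T, eval_prT, Term.eval, eval_pwT, sub_eq_add_neg]
  obtain ⟨w, hw, hw0⟩ := hk
  have hTw : T.eval w ≠ 0 := by
    rw [hT]; simpa [hw] using hw0
  have hTj : ∀ (v : ℕ → R) (j : R), pw N j = 0 → T.eval v * j = 0 := fun v j hj => by
    rw [hT]; exact hk' _ (fun i => gnil _) j hj
  by_cases hA : ∀ x : R, pw N x = 0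
  · let D : ℕ → Prop := fun c => c ∣ Nat.card R ∧ ∃ v : ℕ → R, c • T.eval v ≠ 0
    have hn : 0 < Nat.card R := Nat.card_pos
    have hD : D (Nat.findGreatest D (Nat.card R)) :=
      Nat.findGreatest_spec hn ⟨one_dvd _, w, by simpa using hTw⟩
    set c := Nat.findGreatest D (Nat.card R) with hc
    obtain ⟨⟨d, hd⟩, v0, hv0⟩ := hD
    have hd1 : d ≠ 1 := fun h => hv0 (by
      rw [h, mul_one] at hd
      rw [← hd]; exact card_nsmul_eq_zero')
    obtain ⟨p, hp, q, hq⟩ := Nat.exists_prime_and_dvd hd1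
    have hc0 : 0 < c := Nat.pos_of_ne_zero fun h => hv0 (by rw [h, zero_nsmul])
    have hpc : ∀ v : ℕ → R, (c * p) • T.eval v = 0 := fun v => by
      by_contra h
      have h1 : c * p ∣ Nat.card R := ⟨q, by rw [hd, hq, mul_assoc]⟩
      exact Nat.findGreatest_is_greatest (P := D) (n := Nat.card R)
        (lt_mul_of_one_lt_right hc0 hp.one_lt) (Nat.le_of_dvd hn h1) ⟨h1, v, h⟩
    refine ⟨smT c T, fun v => ?_, v0, by rwa [eval_smT]⟩
    rw [eval_smT]
    set z := c • T.eval v with hz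
    have hz1 : ∀ x, x * z = 0 := fun x => by
      rw [hz, mul_smul_comm, mul_comm, hTj v x (hA x), smul_zero]
    have hz2 : (p : ℤ) • z = 0 := by
      rw [natCast_zsmul, hz, smul_smul, mul_comm, hpc]
    by_cases hz0 : z = 0
    · rw [hz0]; exact M.zero_mem
    obtain ⟨a, ha⟩ := key (fun y => ∃ a : ℤ, y = a • z) ⟨0, by simp⟩
      (by rintro _ _ ⟨a, rfl⟩ ⟨b, rfl⟩; exact ⟨a + b, by rw [add_smul]⟩)
      (by rintro _ ⟨a, rfl⟩; exact ⟨-a, by simp⟩)
      (by rintro x _ ⟨a, rfl⟩; exact ⟨0, by rw [mul_smul_comm, hz1]; simp⟩) z hz0 ⟨1, by simp⟩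
    have hpa : ¬ (p : ℤ) ∣ a := by
      rintro ⟨b, rfl⟩
      exact hm0 (by rw [ha, mul_comm, ← smul_smul, hz2, smul_zero])
    obtain ⟨s, t, hst⟩ := (Nat.prime_iff_prime_int.1 hp).irreducible.coprime_iff_not_dvd.2 hpa
    have : z = t • m := by
      rw [ha, smul_smul, ← zero_add ((t * a) • z), ← smul_zero s, ← hz2, smul_smul, ← add_smul,
        hst, one_smul]
    rw [this]
    exact zsmul_mem hm t
  · push Not at hA
    obtain ⟨x, hx⟩ := hA
    refine ⟨T, fun v => ?_, w, hTw⟩
    by_cases hz0 : T.eval v = 0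
    · rw [hz0]; exact M.zero_mem
    obtain ⟨t, ht⟩ := mult (T.eval v) (pw N x) (by rwa [mul_comm, idem _ (hN x) hx])
    have h1 : pw N t ≠ 0 := fun h => hm0 (ht.trans (hTj v t h))
    rw [← idem _ (hN t) h1 (T.eval v)]
    cases N with
    | zero => rw [pw, mul_comm, ← ht]; exact hm
    | succ N =>
      rw [pw, mul_assoc, mul_comm t, ← ht]
      exact M.mul_mem_left _ _ hm

theorem result (R : Type u) [NonUnitalCommRing R] [Finite R] :
    Critical R ↔ ∃ M : TwoSidedIdeal R, M ≠ ⊥ ∧ ∀ I : TwoSidedIdeal R, I ≠ ⊥ → M ≤ I := by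
  constructor
  · rintro ⟨s, t, h1, h2⟩
    obtain ⟨v, hv⟩ := not_forall.1 h2
    refine ⟨TwoSidedIdeal.span {s.eval v - t.eval v}, fun h => hv ?_, fun I hI => ?_⟩
    · have : s.eval v - t.eval v ∈ TwoSidedIdeal.span {s.eval v - t.eval v} :=
        TwoSidedIdeal.subset_span rfl
      rw [h] at this
      exact sub_eq_zero.1 ((TwoSidedIdeal.mem_bot _).1 this)
    · rw [TwoSidedIdeal.span_le]
      rintro _ rfl
      exact (holds_iff I s t).1 (h1 I hI) v
  · rintro ⟨M, hM, hle⟩
    obtain ⟨t, h1, v, h2⟩ := main M hM hle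
    refine ⟨t, .zero, fun I hI => (holds_iff I _ _).2 fun w => ?_, fun h => h2 (h v)⟩
    simpa [Term.eval] using hle I hI (h1 w)

end Pool.Agent.Results.MP_c0911c_al.Monolith
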